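import Pool.Agent.X171.ED.Neg

/-!
# `L_p[0,1]` is isometric to `ℓ_p(L_p[0,1])`
-/

open Filter Topology MeasureTheory Set
open scoped ENNReal

namespace Pool.Agent.X171.ED

namespace LpI

/-- Lebesgue measure on `(0, 1]`. -/
noncomputable abbrev μ : Measure ℝ := volume.restrict (Ioc (0 : ℝ) 1)

/-- The scales. -/
noncomputable def r (n : ℕ) : ℝ := (1 / 2 : ℝ) ^ (n + 1)

lemma r_pos (n : ℕ) : 0 < r n := by unfold r; positivity

/-- The intervals. -/
def I (n : ℕ) : Set ℝ := Ioc (r n) (2 * r n)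

lemma two_r (n : ℕ) : 2 * r n = (1 / 2 : ℝ) ^ n := by
  unfold r
  rw [pow_succ]; ring

lemma measI (n : ℕ) : MeasurableSet (I n) := measurableSet_Ioc

lemma iUnion_I : (⋃ n, I n) = Ioc (0 : ℝ) 1 := by
  ext x
  rw [mem_iUnion]
  constructor
  · rintro ⟨n, h1, h2⟩
    refine ⟨(r_pos n).trans h1, h2.trans ?_⟩
    rw [two_r]
    exact pow_le_one₀ (by norm_num) (by norm_num)
  · rintro ⟨h1, h2⟩
    obtain ⟨n, h3, h4⟩ := exists_nat_pow_near_of_lt_one (y := (1 / 2 : ℝ)) h1 h2 (by norm_num)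
      (by norm_num)
    refine ⟨n, h3, ?_⟩
    rw [two_r]
    exact h4

lemma I_sub (n : ℕ) : I n ⊆ Ioc (0 : ℝ) 1 := by
  rw [← iUnion_I]
  exact subset_iUnion I n

lemma disj : Pairwise (Function.onFun Disjoint I) := by
  have key : ∀ m n, m < n → Disjoint (I m) (I n) := by
    intro m n h
    rw [Set.disjoint_left]
    intro x hx hx'
    have h1 : r m < x := hx.1
    have h2 : x ≤ 2 * r n := hx'.2
    have h3 : 2 * r n ≤ r m := by
      rw [two_r]
      unfold r
      exact pow_le_pow_of_le_one (by norm_num) (by norm_num) h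
    linarith
  intro m n h
  rcases lt_or_gt_of_ne h with h | h
  · exact key m n h
  · exact (key n m h).symm

/-- The affine maps onto the intervals. -/
noncomputable def T (n : ℕ) (x : ℝ) : ℝ := r n * x + r n

/-- The inverse affine maps. -/
noncomputable def S (n : ℕ) (y : ℝ) : ℝ := (y - r n) / r n

lemma ST (n : ℕ) (x : ℝ) : S n (T n x) = x := by
  unfold S T
  have := (r_pos n).ne'
  field_simp
  ring

lemma measT (n : ℕ) : Measurable (T n) := by unfold T; fun_prop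

lemma measS (n : ℕ) : Measurable (S n) := by unfold S; fun_prop

lemma T_mem (n : ℕ) (x : ℝ) : T n x ∈ I n ↔ x ∈ Ioc (0 : ℝ) 1 := by
  have h := r_pos n
  unfold T I
  rw [mem_Ioc, mem_Ioc]
  constructor
  · rintro ⟨h1, h2⟩
    constructor
    · by_contra hcon
      push Not at hcon
      nlinarith
    · by_contra hcon
      push Not at hcon
      nlinarith
  · rintro ⟨h1, h2⟩
    constructor <;> nlinarith

lemma map_T_vol (n : ℕ) : Measure.map (T n) volume = ENNReal.ofReal (r n)⁻¹ • volume := by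
  have h1 : T n = (fun x => x + r n) ∘ (fun x => r n * x) := rfl
  rw [h1, ← Measure.map_map (by fun_prop) (by fun_prop), Real.map_volume_mul_left (r_pos n).ne',
    Measure.map_smul, map_add_right_eq_self, abs_of_pos (inv_pos.mpr (r_pos n))]

lemma map_T (n : ℕ) :
    Measure.map (T n) μ = ENNReal.ofReal (r n)⁻¹ • volume.restrict (I n) := by
  have h1 : T n ⁻¹' I n = Ioc (0 : ℝ) 1 := by
    ext x
    exact T_mem n x
  rw [← Measure.restrict_smul, ← map_T_vol, Measure.restrict_map (measT n) (measI n), h1]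

lemma ofReal_mul_inv (n : ℕ) : ENNReal.ofReal (r n) * ENNReal.ofReal (r n)⁻¹ = 1 := by
  rw [← ENNReal.ofReal_mul (r_pos n).le, mul_inv_cancel₀ (r_pos n).ne', ENNReal.ofReal_one]

lemma map_S (n : ℕ) :
    Measure.map (S n) (volume.restrict (I n)) = ENNReal.ofReal (r n) • μ := by
  have h1 : volume.restrict (I n) = ENNReal.ofReal (r n) • Measure.map (T n) μ := by
    rw [map_T, smul_smul, ofReal_mul_inv, one_smul]
  have h2 : S n ∘ T n = id := by
    funext x
    exact ST n x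
  rw [h1, Measure.map_smul, Measure.map_map (measS n) (measT n), h2, Measure.map_id]

lemma le_mu (n : ℕ) : volume.restrict (I n) ≤ μ := Measure.restrict_mono_set _ (I_sub n)

lemma qT (n : ℕ) : Measure.QuasiMeasurePreserving (T n) μ μ := by
  refine ⟨measT n, ?_⟩
  rw [map_T]
  exact (Measure.absolutelyContinuous_of_le (le_mu n)).smul_left _

lemma qS (n : ℕ) : Measure.QuasiMeasurePreserving (S n) (volume.restrict (I n)) μ := by
  refine ⟨measS n, ?_⟩
  rw [map_S]
  exact Measure.AbsolutelyContinuous.rfl.smul_left _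

variable {p : ℝ≥0∞}

/-- The normalising constants. -/
noncomputable def c (p : ℝ≥0∞) (n : ℕ) : ℝ := r n ^ (1 / p).toReal

lemma c_pos (n : ℕ) : 0 < c p n := Real.rpow_pos_of_pos (r_pos n) _

lemma memT {f : ℝ → ℝ} (hf : MemLp f p μ) (n : ℕ) : MemLp (fun x => c p n * f (T n x)) p μ := by
  have h1 : MemLp f p (Measure.map (T n) μ) := by
    rw [map_T]
    exact (hf.mono_measure (le_mu n)).smul_measure ENNReal.ofReal_ne_top
  exact (h1.comp_of_map (measT n).aemeasurable).const_mul (c p n)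

lemma normT (hp : p ≠ ⊤) {f : ℝ → ℝ} (hf : MemLp f p μ) (n : ℕ) :
    eLpNorm (fun x => c p n * f (T n x)) p μ = eLpNorm f p (volume.restrict (I n)) := by
  have h1 : AEStronglyMeasurable f (Measure.map (T n) μ) :=
    hf.1.mono_ac (qT n).absolutelyContinuous
  have h2 : (fun x => c p n * f (T n x)) = c p n • (f ∘ T n) := rfl
  rw [h2, eLpNorm_const_smul, ← eLpNorm_map_measure h1 (measT n).aemeasurable, map_T,
    eLpNorm_smul_measure_of_ne_top hp, smul_eq_mul, ← mul_assoc]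
  have h3 : ‖c p n‖ₑ = ENNReal.ofReal (r n) ^ (1 / p).toReal := by
    rw [Real.enorm_of_nonneg (c_pos n).le]
    unfold c
    rw [ENNReal.ofReal_rpow_of_pos (r_pos n)]
  rw [h3, ← ENNReal.mul_rpow_of_nonneg _ _ ENNReal.toReal_nonneg, ofReal_mul_inv,
    ENNReal.one_rpow, one_mul]

lemma sum_norm (hp0 : p ≠ 0) (hp : p ≠ ⊤) (f : ℝ → ℝ) :
    ∑' n, eLpNorm f p (volume.restrict (I n)) ^ p.toReal = eLpNorm f p μ ^ p.toReal := by
  have hpos : 0 < p.toReal := ENNReal.toReal_pos hp0 hp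
  have h : ∀ ν : Measure ℝ, eLpNorm f p ν ^ p.toReal = ∫⁻ x, ‖f x‖ₑ ^ p.toReal ∂ν := by
    intro ν
    rw [eLpNorm_eq_lintegral_rpow_enorm_toReal hp0 hp, ← ENNReal.rpow_mul,
      one_div_mul_cancel hpos.ne', ENNReal.rpow_one]
  simp_rw [h]
  rw [← lintegral_iUnion measI disj, iUnion_I]

/-- The coordinates. -/
noncomputable def phi (p : ℝ≥0∞) (n : ℕ) : Lp ℝ p μ →ₗ[ℝ] Lp ℝ p μ where
  toFun f := (memT (Lp.memLp f) n).toLp _
  map_add' f g := by
    rw [← MemLp.toLp_add]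
    apply MemLp.toLp_congr
    have h := (qT n).ae_eq_comp (Lp.coeFn_add f g)
    filter_upwards [h] with x hx
    have hx' : (f + g : Lp ℝ p μ) (T n x) = f (T n x) + g (T n x) := hx
    rw [hx', Pi.add_apply]
    ring
  map_smul' a f := by
    rw [RingHom.id_apply, ← MemLp.toLp_const_smul]
    apply MemLp.toLp_congr
    have h := (qT n).ae_eq_comp (Lp.coeFn_smul a f)
    filter_upwards [h] with x hx
    have hx' : (a • f : Lp ℝ p μ) (T n x) = a * f (T n x) := hx
    rw [hx', Pi.smul_apply, smul_eq_mul]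
    ring

lemma norm_phi (hp : p ≠ ⊤) (n : ℕ) (f : Lp ℝ p μ) :
    ‖phi p n f‖ = (eLpNorm f p (volume.restrict (I n))).toReal := by
  change ‖(memT (Lp.memLp f) n).toLp _‖ = _
  rw [Lp.norm_toLp, normT hp (Lp.memLp f)]

lemma hasSum_phi (hp0 : p ≠ 0) (hp : p ≠ ⊤) (f : Lp ℝ p μ) :
    HasSum (fun n => ‖phi p n f‖ ^ p.toReal) (‖f‖ ^ p.toReal) := by
  have h1 := sum_norm hp0 hp f
  have hfin : eLpNorm f p μ ^ p.toReal ≠ ⊤ :=
    ENNReal.rpow_ne_top_of_nonneg ENNReal.toReal_nonneg (Lp.eLpNorm_ne_top f)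
  have h2 : ∑' n, eLpNorm f p (volume.restrict (I n)) ^ p.toReal ≠ ⊤ := by
    rw [h1]; exact hfin
  have h3 := ENNReal.hasSum_toReal h2
  rw [← ENNReal.tsum_toReal_eq (fun n => ENNReal.ne_top_of_tsum_ne_top h2 n), h1,
    ← ENNReal.toReal_rpow] at h3
  rw [Lp.norm_def]
  convert h3 using 2 with n
  rw [norm_phi hp, ENNReal.toReal_rpow]

variable [hp1 : Fact (1 ≤ p)]

/-- The isometry. -/
noncomputable def Phi (hp : p ≠ ⊤) : Lp ℝ p μ →ₗᵢ[ℝ] lp (fun _ : ℕ => Lp ℝ p μ) p where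
  toFun f := ⟨fun n => phi p n f, memℓp_gen (hasSum_phi p_ne_zero hp f).summable⟩
  map_add' f g := by
    apply lp.ext
    funext n
    exact map_add (phi p n) f g
  map_smul' a f := by
    apply lp.ext
    funext n
    exact map_smul (phi p n) a f
  norm_map' f := by
    have hpos : 0 < p.toReal := ENNReal.toReal_pos p_ne_zero hp
    rw [lp.norm_eq_tsum_rpow hpos]
    have h : (∑' n, ‖phi p n f‖ ^ p.toReal) = ‖f‖ ^ p.toReal := (hasSum_phi p_ne_zero hp f).tsum_eq
    change (∑' n, ‖phi p n f‖ ^ p.toReal) ^ (1 / p.toReal) = ‖f‖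
    rw [h, ← Real.rpow_mul (norm_nonneg _), mul_one_div_cancel hpos.ne', Real.rpow_one]

lemma Phi_apply (hp : p ≠ ⊤) (f : Lp ℝ p μ) (n : ℕ) : Phi hp f n = phi p n f := rfl

omit hp1 in
lemma memS {z : ℝ → ℝ} (hz : MemLp z p μ) (n : ℕ) :
    MemLp (indicator (I n) (fun y => (c p n)⁻¹ * z (S n y))) p μ := by
  rw [memLp_indicator_iff_restrict (measI n),
    Measure.restrict_restrict_of_subset (I_sub n)]
  have h1 : MemLp z p (Measure.map (S n) (volume.restrict (I n))) := by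
    rw [map_S]
    exact hz.smul_measure ENNReal.ofReal_ne_top
  exact (h1.comp_of_map (measS n).aemeasurable).const_mul _

/-- The right inverses. -/
noncomputable def psi (p : ℝ≥0∞) (n : ℕ) (z : Lp ℝ p μ) : Lp ℝ p μ := (memS (Lp.memLp z) n).toLp _

omit hp1 in
lemma phi_psi (m n : ℕ) (z : Lp ℝ p μ) : phi p m (psi p n z) = if m = n then z else 0 := by
  apply Lp.ext
  have h1 : (phi p m (psi p n z) : ℝ → ℝ) =ᵐ[μ] fun x => c p m * psi p n z (T m x) :=
    MemLp.coeFn_toLp (memT (Lp.memLp (psi p n z)) m)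
  have h2 := (qT m).ae_eq_comp (MemLp.coeFn_toLp (memS (p := p) (Lp.memLp z) n))
  have h3 : ∀ᵐ x ∂μ, x ∈ Ioc (0 : ℝ) 1 := ae_restrict_mem measurableSet_Ioc
  have h4 : ((if m = n then z else 0 : Lp ℝ p μ) : ℝ → ℝ) =ᵐ[μ]
      fun x => if m = n then z x else 0 := by
    split_ifs
    · exact EventuallyEq.rfl
    · exact Lp.coeFn_zero _ _ _
  filter_upwards [h1, h2, h3, h4] with x e1 e2 e3 e4
  rw [e1, e4]
  have e5 : psi p n z (T m x) = indicator (I n) (fun y => (c p n)⁻¹ * z (S n y)) (T m x) := e2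
  rw [e5]
  have e6 : T m x ∈ I m := (T_mem m x).mpr e3
  split_ifs with h
  · subst h
    rw [indicator_of_mem e6, ST, ← mul_assoc, mul_inv_cancel₀ (c_pos m).ne', one_mul]
  · have e7 : T m x ∉ I n := Set.disjoint_left.mp (disj h) e6
    rw [indicator_of_notMem e7, mul_zero]

lemma Phi_psi (hp : p ≠ ⊤) (n : ℕ) (z : Lp ℝ p μ) : Phi hp (psi p n z) = lp.single p n z := by
  apply lp.ext
  funext m
  rw [Phi_apply, phi_psi]
  by_cases h : m = n
  · subst h
    rw [if_pos rfl, lp.single_apply_self]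
  · rw [if_neg h, lp.single_apply_ne _ _ _ h]

lemma Phi_surj (hp : p ≠ ⊤) : Function.Surjective (Phi (p := p) hp) := by
  intro x
  have hcl : IsClosed (Set.range (Phi (p := p) hp)) := (Phi hp).isometry.isClosedEmbedding.isClosed_range
  have hs := lp.hasSum_single hp x
  have : x ∈ Set.range (Phi (p := p) hp) := by
    refine hcl.mem_of_tendsto hs (Eventually.of_forall (fun s => ?_))
    refine ⟨∑ n ∈ s, psi p n (x n), ?_⟩
    rw [map_sum]
    exact Finset.sum_congr rfl (fun n _ => Phi_psi hp n (x n))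
  exact this

/-- `L_p[0,1]` is isometric to `ℓ_p(L_p[0,1])`. -/
noncomputable def equiv (hp : p ≠ ⊤) : Lp ℝ p μ ≃ₗᵢ[ℝ] lp (fun _ : ℕ => Lp ℝ p μ) p :=
  LinearIsometryEquiv.ofSurjective (Phi hp) (Phi_surj hp)

omit hp1 in
lemma exists_ne (hp0 : p ≠ 0) : Nontrivial (Lp ℝ p μ) := by
  refine ⟨⟨(memLp_const (1 : ℝ)).toLp _, 0, fun h => ?_⟩⟩
  have h1 : eLpNorm (fun _ : ℝ => (1 : ℝ)) p μ = 0 := by
    have h2 := congrArg norm h
    rw [Lp.norm_toLp, Lp.norm_zero] at h2
    exact ((ENNReal.toReal_eq_zero_iff _).mp h2).resolve_right (memLp_const (1 : ℝ)).2.ne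
  rw [eLpNorm_eq_zero_iff aestronglyMeasurable_const hp0] at h1
  have h3 : ∀ᵐ x ∂μ, False := by
    filter_upwards [h1] with x hx
    exact one_ne_zero (α := ℝ) hx
  rw [eventually_false_iff_eq_bot, ae_eq_bot] at h3
  have h4 : μ Set.univ = 1 := by simp
  rw [h3] at h4
  simp at h4

end LpI

end Pool.Agent.X171.ED
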