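import Pool.Agent.X171.ED.Defs

open Filter Topology
open scoped ENNReal

namespace Pool.Agent.X171.ED

open Pool.Agent.X171.LS

/-- The space `ℓ_1`. -/
abbrev L1 : Type := lp (fun _ : ℕ => ℝ) 1

lemma one_pos' : 0 < (1 : ℝ≥0∞).toReal := by simp

lemma summable_norm (x : L1) : Summable fun i => ‖x i‖ := by
  have h := (lp.memℓp x).summable one_pos'
  simpa using h

lemma norm_eq (x : L1) : ‖x‖ = ∑' i, ‖x i‖ := by
  rw [lp.norm_eq_tsum_rpow one_pos']
  simp

/-- The functional given by a bounded sequence. -/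
noncomputable def pair (a : ℕ → ℝ) (C : ℝ) (ha : ∀ i, |a i| ≤ C) : StrongDual ℝ L1 :=
  LinearMap.mkContinuous
    { toFun := fun x => ∑' i, a i * x i
      map_add' := fun x y => by
        have hs : ∀ x : L1, Summable fun i => a i * x i := fun x => by
          refine Summable.of_norm_bounded ((summable_norm x).mul_left C) (fun i => ?_)
          rw [norm_mul]
          exact mul_le_mul_of_nonneg_right (ha i) (norm_nonneg _)
        rw [← (hs x).tsum_add (hs y)]
        congr 1
        funext i
        have h : (x + y : L1) i = x i + y i := rfl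
        rw [h, mul_add]
      map_smul' := fun c x => by
        change ∑' i, a i * (c • x : L1) i = c * ∑' i, a i * x i
        rw [← tsum_mul_left]
        congr 1
        funext i
        have h : (c • x : L1) i = c * x i := rfl
        rw [h]; ring } C (fun x => by
      have hC : 0 ≤ C := (abs_nonneg _).trans (ha 0)
      change ‖∑' i, a i * x i‖ ≤ C * ‖x‖
      rw [norm_eq, ← tsum_mul_left]
      refine tsum_of_norm_bounded ((summable_norm x).mul_left C).hasSum (fun i => ?_)
      rw [norm_mul]
      exact mul_le_mul_of_nonneg_right (ha i) (norm_nonneg _))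

lemma pair_apply (a : ℕ → ℝ) (C : ℝ) (ha : ∀ i, |a i| ≤ C) (x : L1) :
    pair a C ha x = ∑' i, a i * x i := rfl

lemma norm_pair_le (a : ℕ → ℝ) (C : ℝ) (ha : ∀ i, |a i| ≤ C) : ‖pair a C ha‖ ≤ C := by
  have hC : 0 ≤ C := (abs_nonneg _).trans (ha 0)
  refine ContinuousLinearMap.opNorm_le_bound _ hC (fun x => ?_)
  rw [pair_apply, norm_eq, ← tsum_mul_left]
  refine tsum_of_norm_bounded ((summable_norm x).mul_left C).hasSum (fun i => ?_)
  rw [norm_mul]
  exact mul_le_mul_of_nonneg_right (ha i) (norm_nonneg _)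

/-- The unit vectors. -/
noncomputable def ee (i : ℕ) : L1 := lp.single 1 i (1 : ℝ)

lemma ee_self (i : ℕ) : ee i i = 1 := lp.single_apply_self (E := fun _ : ℕ => ℝ) 1 i 1

lemma ee_ne {i j : ℕ} (h : j ≠ i) : ee i j = 0 :=
  lp.single_apply_ne (E := fun _ : ℕ => ℝ) 1 i 1 h

lemma single_eq (i : ℕ) (c : ℝ) : (lp.single 1 i c : L1) = c • ee i := by
  unfold ee
  rw [← lp.single_smul, smul_eq_mul, mul_one]

lemma norm_ee (i : ℕ) : ‖ee i‖ = 1 := by
  unfold ee
  rw [lp.norm_single (by simp), norm_one]

lemma pair_ee (a : ℕ → ℝ) (C : ℝ) (ha : ∀ i, |a i| ≤ C) (i : ℕ) : pair a C ha (ee i) = a i := by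
  rw [pair_apply, tsum_eq_single i]
  · rw [ee_self, mul_one]
  · intro j hj
    rw [ee_ne hj, mul_zero]

/-- The coefficients. -/
noncomputable def cf (f : Lip0 L1) (i : ℕ) : ℝ := (f (ee i) - f (-ee i)) / 2

lemma cf_le (f : Lip0 L1) (i : ℕ) : |cf f i| ≤ ‖f‖ := by
  have h := Lip.norm_sub_le f (ee i) (-ee i)
  have h2 : dist (ee i) (-ee i) = 2 := by
    rw [dist_eq_norm, sub_neg_eq_add, ← two_smul ℝ, norm_smul, norm_ee]
    simp
  rw [h2, Real.norm_eq_abs] at h
  unfold cf
  rw [abs_div, abs_two]
  linarith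

/-- The projection. -/
noncomputable def Pr : Lip0 L1 →L[ℝ] StrongDual ℝ L1 :=
  LinearMap.mkContinuous
    { toFun := fun f => pair (cf f) ‖f‖ (cf_le f)
      map_add' := fun f g => by
        ext x
        have hs : ∀ f : Lip0 L1, Summable fun i => cf f i * x i := fun f => by
          refine Summable.of_norm_bounded ((summable_norm x).mul_left ‖f‖) (fun i => ?_)
          rw [norm_mul]
          exact mul_le_mul_of_nonneg_right (cf_le f i) (norm_nonneg _)
        change ∑' i, cf (f + g) i * x i = (∑' i, cf f i * x i) + ∑' i, cf g i * x i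
        rw [← (hs f).tsum_add (hs g)]
        congr 1
        funext i
        have h : cf (f + g) i = cf f i + cf g i := by
          unfold cf
          rw [Lip.add_apply, Lip.add_apply]; ring
        rw [h, add_mul]
      map_smul' := fun c f => by
        ext x
        change ∑' i, cf (c • f) i * x i = c * ∑' i, cf f i * x i
        rw [← tsum_mul_left]
        congr 1
        funext i
        have h : cf (c • f) i = c * cf f i := by
          unfold cf
          rw [Lip.smul_apply, Lip.smul_apply, smul_eq_mul, smul_eq_mul]; ring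
        rw [h]; ring } 1 (fun f => by
      rw [one_mul]
      exact norm_pair_le (cf f) ‖f‖ (cf_le f))

lemma Pr_ee (f : Lip0 L1) (i : ℕ) : Pr f (ee i) = (f (ee i) - f (-ee i)) / 2 :=
  pair_ee (cf f) ‖f‖ (cf_le f) i

/-- Functionals on `ℓ_1` are determined by their values at the unit vectors. -/
lemma ext_ee {φ ψ : StrongDual ℝ L1} (h : ∀ i, φ (ee i) = ψ (ee i)) : φ = ψ := by
  refine lp.ext_continuousLinearMap (by simp) (fun i => ?_)
  ext
  change φ (lp.single 1 i (1 : ℝ)) = ψ (lp.single 1 i (1 : ℝ))
  exact h i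

lemma two_le (u : L1) {i j : ℕ} (h : i ≠ j) : |u i| + |u j| ≤ ‖u‖ := by
  have h1 := lp.sum_rpow_le_norm_rpow one_pos' u {i, j}
  rw [Finset.sum_pair h] at h1
  simpa using h1

lemma abs_apply_le (u : L1) (i : ℕ) : |u i| ≤ ‖u‖ := lp.norm_apply_le_norm (by simp) u i

/-- The unit vectors are extreme points. -/
lemma ee_extreme (i : ℕ) (u v : L1) (hu : ‖u‖ ≤ 1) (hv : ‖v‖ ≤ 1)
    (h : u + v = (2 : ℝ) • ee i) : u = ee i := by
  have h1 : u i + v i = 2 := by
    have h2 : (u + v) i = ((2 : ℝ) • ee i : L1) i := by rw [h]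
    have h3 : (u + v) i = u i + v i := rfl
    have h4 : ((2 : ℝ) • ee i : L1) i = 2 * ee i i := rfl
    rw [h3, h4, ee_self, mul_one] at h2
    exact h2
  have hui : u i = 1 := by
    have e1 := (abs_le.mp ((abs_apply_le u i).trans hu)).2
    have e2 := (abs_le.mp ((abs_apply_le v i).trans hv)).2
    linarith
  apply lp.ext
  funext j
  by_cases hj : j = i
  · subst hj
    rw [hui, ee_self]
  · rw [ee_ne hj]
    have h2 := (two_le u (Ne.symm hj)).trans hu
    rw [hui, abs_one] at h2
    have h3 := abs_nonneg (u j)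
    exact abs_eq_zero.mp (le_antisymm (by linarith) h3)

/-- Extreme points of the unit ball are unit vectors up to sign. -/
lemma extreme_eq (y : L1) (hy : ‖y‖ = 1) (hex : ∀ u v : L1, ‖u‖ ≤ 1 → ‖v‖ ≤ 1 →
    u + v = (2 : ℝ) • y → u = y) : ∃ j, y = ee j ∨ y = -ee j := by
  have hne : y ≠ 0 := by
    intro h
    rw [h, norm_zero] at hy
    norm_num at hy
  have hj : ∃ j, y j ≠ 0 := by
    by_contra hcon
    push Not at hcon
    apply hne
    apply lp.ext
    funext j
    exact hcon j
  obtain ⟨j, hj⟩ := hj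
  set t := |y j| with ht
  have htpos : 0 < t := abs_pos.mpr hj
  set y' : L1 := y - (y j) • ee j with hy'
  have hy'n : ‖y'‖ = 1 - t := by
    have h1 := lp.norm_compl_sum_single one_pos' y {j}
    rw [Finset.sum_singleton, Finset.sum_singleton, hy] at h1
    have h2 : (lp.single 1 j (y j) : L1) = (y j) • ee j := single_eq j (y j)
    rw [h2] at h1
    simpa using h1
  have hy'j : y' j = 0 := by
    have h1 : y' j = y j - (y j) * ee j j := rfl
    rw [h1, ee_self, mul_one, sub_self]
  have hyy : y = (y j) • ee j + y' := by rw [hy']; abel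
  rcases (norm_nonneg y').eq_or_lt with h0 | h0
  · -- the remainder vanishes
    have h1 : y' = 0 := norm_eq_zero.mp h0.symm
    have h2 : t = 1 := by
      rw [← h0] at hy'n
      linarith
    refine ⟨j, ?_⟩
    rw [h1, add_zero] at hyy
    rcases abs_eq zero_le_one |>.mp h2 with h3 | h3
    · left
      rw [hyy, h3, one_smul]
    · right
      rw [hyy, h3, neg_one_smul]
  · exfalso
    have ht1 : t < 1 := by linarith
    set s := min t (1 - t) with hs
    have hspos : 0 < s := lt_min htpos (by linarith)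
    have hst : s ≤ t := min_le_left _ _
    have hst' : s ≤ 1 - t := min_le_right _ _
    have hn : ∀ σ : ℝ, |σ| ≤ s → ‖((1 + σ / t) * y j) • ee j + (1 - σ / (1 - t)) • y'‖ ≤ 1 := by
      intro σ hσ
      have e1 := abs_le.mp hσ
      have p1 : 0 ≤ 1 + σ / t := by
        have : -1 ≤ σ / t := by
          rw [le_div_iff₀ htpos]; linarith
        linarith
      have p2 : 0 ≤ 1 - σ / (1 - t) := by
        have : σ / (1 - t) ≤ 1 := by
          rw [div_le_one (by linarith)]; linarith
        linarith
      calc ‖((1 + σ / t) * y j) • ee j + (1 - σ / (1 - t)) • y'‖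
          ≤ ‖((1 + σ / t) * y j) • ee j‖ + ‖(1 - σ / (1 - t)) • y'‖ := norm_add_le _ _
        _ = (1 + σ / t) * t + (1 - σ / (1 - t)) * (1 - t) := by
            rw [norm_smul, norm_smul, norm_ee, mul_one, norm_mul, Real.norm_of_nonneg p1,
              Real.norm_of_nonneg p2, hy'n, Real.norm_eq_abs]
        _ = 1 := by
            have : 1 - t ≠ 0 := by linarith
            field_simp
            ring
    have h1 := hex _ _ (hn s (by rw [abs_of_pos hspos])) (hn (-s) (by
      rw [abs_neg, abs_of_pos hspos])) (by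
        have hk : ∀ (c : ℝ) (a b : L1), (((1 + s / t) * c) • a + (1 - s / (1 - t)) • b) +
            (((1 + -s / t) * c) • a + (1 - -s / (1 - t)) • b) = (2 : ℝ) • (c • a + b) := by
          intro c a b
          module
        rw [hk, ← hyy])
    have h2 : (((1 + s / t) * y j) • ee j + (1 - s / (1 - t)) • y' : L1) j = y j := by
      rw [h1]
    have h3 : (((1 + s / t) * y j) • ee j + (1 - s / (1 - t)) • y' : L1) j =
        ((1 + s / t) * y j) * ee j j + (1 - s / (1 - t)) * y' j := rfl
    rw [h3, ee_self, hy'j, mul_one, mul_zero, add_zero] at h2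
    have h4 : s / t * y j = 0 := by linarith
    rcases mul_eq_zero.mp h4 with h5 | h5
    · have : 0 < s / t := div_pos hspos htpos
      linarith
    · exact hj h5

/-- Surjective isometries permute the unit vectors up to signs. -/
lemma isom_ee (g : L1 ≃ₗᵢ[ℝ] L1) (i : ℕ) : ∃ j, g (ee i) = ee j ∨ g (ee i) = -ee j := by
  apply extreme_eq
  · rw [g.norm_map, norm_ee]
  · intro u v hu hv h
    have h1 : g.symm u = ee i := by
      apply ee_extreme i (g.symm u) (g.symm v)
      · rw [g.symm.norm_map]; exact hu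
      · rw [g.symm.norm_map]; exact hv
      · rw [← map_add, h, map_smul, g.symm_apply_apply]
    rw [← h1, g.apply_symm_apply]

/-- `ℓ_1` has the equivariant dual lifting property. -/
theorem edl_one : EDL L1 := by
  refine ⟨Pr, fun φ => ?_, fun g f x => ?_⟩
  · apply ext_ee
    intro i
    rw [Pr_ee]
    change (φ (ee i) - φ (-ee i)) / 2 = φ (ee i)
    rw [map_neg]
    ring
  · have h : Pr (pull g f) = (Pr f).comp (g.toContinuousLinearEquiv : L1 →L[ℝ] L1) := by
      apply ext_ee
      intro i
      rw [Pr_ee, pull_apply, pull_apply, map_neg]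
      change (f (g (ee i)) - f (-g (ee i))) / 2 = Pr f (g (ee i))
      obtain ⟨j, hj | hj⟩ := isom_ee g i
      · rw [hj, Pr_ee]
      · rw [hj, map_neg, Pr_ee, neg_neg]
        ring
    rw [h]
    rfl

end Pool.Agent.X171.ED
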