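import Pool.Agent.X171.LS.Defs

/-!
# The equivariant dual lifting property for the group of all surjective linear isometries
-/

namespace Pool.Agent.X171.ED

open Pool.Agent.X171.LS

section

variable (X : Type) [NormedAddCommGroup X] [NormedSpace ℝ X]

/-- The space of the real Lipschitz functions on `X` which vanish at `0`, with the norm given by
the best Lipschitz constant. -/
abbrev Lip0 : Type := Lip (0 : X) ℝ

variable {X}

/-- The Lipschitz function given by a bounded linear functional. -/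
noncomputable def toLip (φ : StrongDual ℝ X) : Lip0 X :=
  Lip.mk (fun x => φ x) (map_zero φ) ‖φ‖ (fun x y => by
    rw [← map_sub, dist_eq_norm]
    exact φ.le_opNorm _)

variable {V : Type} [NormedAddCommGroup V] [NormedSpace ℝ V]

/-- Composition of Lipschitz functions with a linear isometry: `f ↦ f ∘ g`. -/
noncomputable def pull (g : X ≃ₗᵢ[ℝ] V) : Lip0 V →L[ℝ] Lip0 X :=
  LinearMap.mkContinuous
    { toFun := fun f => Lip.mk (fun x => f (g x)) (by rw [map_zero]; exact f.base) ‖f‖
        (fun a b => by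
          have h := Lip.norm_sub_le f (g a) (g b)
          rwa [g.dist_map] at h)
      map_add' := fun _ _ => rfl
      map_smul' := fun _ _ => rfl } 1 (fun f => by
        rw [one_mul]
        refine Lip.norm_le _ (norm_nonneg _) (fun a b => ?_)
        have h := Lip.norm_sub_le f (g a) (g b)
        rwa [g.dist_map] at h)

lemma pull_apply (g : X ≃ₗᵢ[ℝ] V) (f : Lip0 V) (x : X) : pull g f x = f (g x) := rfl

variable (X) in
/-- `X` has the `G`-equivariant dual lifting property, where `G` is the group of all surjective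
linear isometries of `X`: there is a bounded linear projection `P` of `Lip0 X` onto the dual of `X`
with `P (f ∘ g) = (P f) ∘ g` for all `f` and all `g` in `G`. -/
def EDL : Prop := ∃ P : Lip0 X →L[ℝ] StrongDual ℝ X, (∀ φ, P (toLip φ) = φ) ∧
  ∀ (g : X ≃ₗᵢ[ℝ] X) (f : Lip0 X) (x : X), P (pull g f) x = P f (g x)

/-- The property is invariant under isometric isomorphisms. -/
lemma EDL.congr (h : EDL X) (e : X ≃ₗᵢ[ℝ] V) : EDL V := by
  obtain ⟨P, h1, h2⟩ := h
  set Q : StrongDual ℝ X →L[ℝ] StrongDual ℝ V := LinearMap.mkContinuous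
    { toFun := fun φ => φ.comp (e.symm.toContinuousLinearEquiv : V →L[ℝ] X)
      map_add' := fun _ _ => rfl
      map_smul' := fun _ _ => rfl } 1 (fun φ => by
        rw [one_mul]
        refine ContinuousLinearMap.opNorm_le_bound _ (norm_nonneg _) (fun v => ?_)
        have h3 := φ.le_opNorm (e.symm v)
        rw [e.symm.norm_map] at h3
        exact h3) with hQ
  have hQa : ∀ (φ : StrongDual ℝ X) (v : V), Q φ v = φ (e.symm v) := fun _ _ => rfl
  refine ⟨Q.comp (P.comp (pull e)), fun φ => ?_, fun g f v => ?_⟩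
  · ext v
    change Q (P (pull e (toLip φ))) v = φ v
    rw [hQa]
    have h3 : pull e (toLip φ) = toLip (φ.comp (e.toContinuousLinearEquiv : X →L[ℝ] V)) := rfl
    rw [h3, h1]
    change φ (e (e.symm v)) = φ v
    rw [e.apply_symm_apply]
  · change Q (P (pull e (pull g f))) v = Q (P (pull e f)) (g v)
    rw [hQa, hQa]
    have h3 : pull e (pull g f) = pull ((e.trans g).trans e.symm) (pull e f) := by
      apply Lip.ext
      intro x
      rw [pull_apply, pull_apply, pull_apply, pull_apply]
      change f (g (e x)) = f (e (e.symm (g (e x))))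
      rw [e.apply_symm_apply]
    rw [h3, h2]
    change P (pull e f) (e.symm (g (e (e.symm v)))) = P (pull e f) (e.symm (g v))
    rw [e.apply_symm_apply]

end

/-- Bijections between infinite sets with infinite complements extend to permutations. -/
lemma exists_perm {A B : Set ℕ} (hA : A.Infinite) (hA' : Aᶜ.Infinite) (hB : B.Infinite)
    (hB' : Bᶜ.Infinite) : ∃ π : Equiv.Perm ℕ, π '' A = B := by
  classical
  haveI := hA.to_subtype
  haveI := hA'.to_subtype
  haveI := hB.to_subtype
  haveI := hB'.to_subtype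
  obtain ⟨e1⟩ := nonempty_equiv_of_countable (α := A) (β := B)
  obtain ⟨e2⟩ := nonempty_equiv_of_countable (α := (Aᶜ : Set ℕ)) (β := (Bᶜ : Set ℕ))
  set π : Equiv.Perm ℕ := (Equiv.Set.sumCompl A).symm.trans
    ((Equiv.sumCongr e1 e2).trans (Equiv.Set.sumCompl B)) with hπ
  have h1 : ∀ a : A, π a = e1 a := by
    intro a
    simp [hπ, Equiv.Set.sumCompl_symm_apply_of_mem a.2]
  refine ⟨π, ?_⟩
  ext b
  constructor
  · rintro ⟨a, ha, rfl⟩
    rw [h1 ⟨a, ha⟩]
    exact (e1 ⟨a, ha⟩).2
  · intro hb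
    refine ⟨e1.symm ⟨b, hb⟩, (e1.symm ⟨b, hb⟩).2, ?_⟩
    rw [h1, e1.apply_symm_apply]

/-- A finitely additive real function on the sets of integers which is invariant under all
permutations vanishes at the whole set. -/
lemma paradox (m : Set ℕ → ℝ) (hadd : ∀ A B, Disjoint A B → m (A ∪ B) = m A + m B)
    (hinv : ∀ (π : Equiv.Perm ℕ) (A : Set ℕ), m (π '' A) = m A) : m Set.univ = 0 := by
  have inf4 : ∀ r, r < 4 → {n : ℕ | n % 4 = r}.Infinite := by
    intro r hr
    refine Set.infinite_of_injective_forall_mem (f := fun k : ℕ => 4 * k + r) ?_ ?_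
    · intro a b h
      simp only at h
      omega
    · intro k
      change (4 * k + r) % 4 = r
      omega
  have hE1 : {n : ℕ | n % 4 = 0}.Infinite := inf4 0 (by norm_num)
  have hE2 : {n : ℕ | n % 4 = 2}.Infinite := inf4 2 (by norm_num)
  have hE : {n : ℕ | n % 2 = 0}.Infinite := hE1.mono (fun n (hn : n % 4 = 0) => by
    change n % 2 = 0; omega)
  have hO : {n : ℕ | n % 2 = 1}.Infinite := (inf4 1 (by norm_num)).mono
    (fun n (hn : n % 4 = 1) => by change n % 2 = 1; omega)
  have hc : ∀ S : Set ℕ, {n : ℕ | n % 2 = 1} ⊆ Sᶜ → Sᶜ.Infinite := fun S h => hO.mono h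
  have hE1c : ({n : ℕ | n % 4 = 0}ᶜ).Infinite := hc _ (fun n (hn : n % 2 = 1) => by
    change ¬ (n % 4 = 0); omega)
  have hE2c : ({n : ℕ | n % 4 = 2}ᶜ).Infinite := hc _ (fun n (hn : n % 2 = 1) => by
    change ¬ (n % 4 = 2); omega)
  have hEc : ({n : ℕ | n % 2 = 0}ᶜ).Infinite := hc _ (fun n (hn : n % 2 = 1) => by
    change ¬ (n % 2 = 0); omega)
  have hOc : ({n : ℕ | n % 2 = 1}ᶜ).Infinite := hE.mono (fun n (hn : n % 2 = 0) => by
    change ¬ (n % 2 = 1); omega)
  obtain ⟨π1, h1⟩ := exists_perm hE1 hE1c hE2 hE2c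
  obtain ⟨π2, h2⟩ := exists_perm hE1 hE1c hE hEc
  obtain ⟨π3, h3⟩ := exists_perm hE hEc hO hOc
  have e1 := hinv π1 {n : ℕ | n % 4 = 0}
  have e2 := hinv π2 {n : ℕ | n % 4 = 0}
  have e3 := hinv π3 {n : ℕ | n % 2 = 0}
  rw [h1] at e1
  rw [h2] at e2
  rw [h3] at e3
  have e4 : m {n : ℕ | n % 2 = 0} = m {n : ℕ | n % 4 = 0} + m {n : ℕ | n % 4 = 2} := by
    rw [← hadd]
    · congr 1
      ext n
      change n % 2 = 0 ↔ (n % 4 = 0 ∨ n % 4 = 2)
      omega
    · rw [Set.disjoint_left]
      intro n (hn : n % 4 = 0) (hn' : n % 4 = 2)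
      omega
  have e5 : m Set.univ = m {n : ℕ | n % 2 = 0} + m {n : ℕ | n % 2 = 1} := by
    rw [← hadd]
    · congr 1
      ext n
      change True ↔ (n % 2 = 0 ∨ n % 2 = 1)
      simp only [true_iff]
      omega
    · rw [Set.disjoint_left]
      intro n (hn : n % 2 = 0) (hn' : n % 2 = 1)
      omega
  linarith

end Pool.Agent.X171.ED
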