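import Pool.Agent.X171.ED.Defs

open Filter Topology
open scoped ENNReal

namespace Pool.Agent.X171.ED

open Pool.Agent.X171.LS

section Reindex

variable {Z : Type} [NormedAddCommGroup Z] [NormedSpace ℝ Z] {p : ℝ≥0∞} [Fact (1 ≤ p)]
  {I J : Type}

/-- The isometry given by a bijection of the index sets. -/
noncomputable def reindex (hp : 0 < p.toReal) (e : I ≃ J) :
    lp (fun _ : J => Z) p ≃ₗᵢ[ℝ] lp (fun _ : I => Z) p where
  toFun x := ⟨fun i => x (e i), memℓp_gen (by
    have h := (lp.memℓp x).summable hp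
    exact e.summable_iff.mpr h)⟩
  invFun x := ⟨fun j => x (e.symm j), memℓp_gen (by
    have h := (lp.memℓp x).summable hp
    exact e.symm.summable_iff.mpr h)⟩
  map_add' := fun _ _ => rfl
  map_smul' := fun _ _ => rfl
  left_inv := fun x => by
    apply lp.ext
    funext j
    change x (e (e.symm j)) = x j
    rw [e.apply_symm_apply]
  right_inv := fun x => by
    apply lp.ext
    funext i
    change x (e.symm (e i)) = x i
    rw [e.symm_apply_apply]
  norm_map' := fun x => by
    rw [lp.norm_eq_tsum_rpow hp, lp.norm_eq_tsum_rpow hp]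
    congr 1
    exact e.tsum_eq (fun j => ‖x j‖ ^ p.toReal)

lemma reindex_apply (hp : 0 < p.toReal) (e : I ≃ J) (x : lp (fun _ : J => Z) p) (i : I) :
    reindex hp e x i = x (e i) := rfl

open Classical in
/-- The restriction to a set of indices. -/
noncomputable def res (S : Set I) (x : lp (fun _ : I => Z) p) : lp (fun _ : I => Z) p :=
  ⟨fun i => if i ∈ S then x i else 0, (lp.memℓp x).mono' (fun i => by
    split_ifs
    · exact le_rfl
    · rw [norm_zero]; exact norm_nonneg _)⟩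

lemma res_of_mem {S : Set I} {i : I} (h : i ∈ S) (x : lp (fun _ : I => Z) p) :
    res S x i = x i := if_pos h

lemma res_of_not_mem {S : Set I} {i : I} (h : i ∉ S) (x : lp (fun _ : I => Z) p) :
    res S x i = 0 := if_neg h

/-- The norm of the restriction. -/
noncomputable def q (S : Set I) (x : lp (fun _ : I => Z) p) : ℝ := ‖res S x‖

lemma q_nonneg (S : Set I) (x : lp (fun _ : I => Z) p) : 0 ≤ q S x := norm_nonneg _

lemma res_sub (S : Set I) (x y : lp (fun _ : I => Z) p) : res S x - res S y = res S (x - y) := by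
  apply lp.ext
  funext i
  change res S x i - res S y i = res S (x - y) i
  by_cases h : i ∈ S
  · rw [res_of_mem h, res_of_mem h, res_of_mem h]; rfl
  · rw [res_of_not_mem h, res_of_not_mem h, res_of_not_mem h, sub_zero]

lemma p_ne_zero : p ≠ 0 := by
  have h : (1 : ℝ≥0∞) ≤ p := Fact.out
  intro h0
  rw [h0] at h
  simp at h

lemma q_mono {S S' : Set I} (h : S ⊆ S') (x : lp (fun _ : I => Z) p) : q S x ≤ q S' x := by
  refine lp.norm_mono p_ne_zero (fun i => ?_)
  by_cases hi : i ∈ S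
  · rw [res_of_mem hi, res_of_mem (h hi)]
  · rw [res_of_not_mem hi, norm_zero]; exact norm_nonneg _

lemma q_le (S : Set I) (x : lp (fun _ : I => Z) p) : q S x ≤ ‖x‖ := by
  refine lp.norm_mono p_ne_zero (fun i => ?_)
  by_cases hi : i ∈ S
  · rw [res_of_mem hi]
  · rw [res_of_not_mem hi, norm_zero]; exact norm_nonneg _

lemma q_sub (S : Set I) (x y : lp (fun _ : I => Z) p) : |q S x - q S y| ≤ ‖x - y‖ := by
  refine (abs_norm_sub_norm_le _ _).trans ?_
  rw [res_sub]
  exact q_le S (x - y)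

lemma q_add (hp : 0 < p.toReal) {S S' : Set I} (h : Disjoint S S')
    (x : lp (fun _ : I => Z) p) :
    q S x ^ p.toReal + q S' x ^ p.toReal = q (S ∪ S') x ^ p.toReal := by
  unfold q
  rw [lp.norm_rpow_eq_tsum hp, lp.norm_rpow_eq_tsum hp, lp.norm_rpow_eq_tsum hp,
    ← ((lp.memℓp (res S x)).summable hp).tsum_add ((lp.memℓp (res S' x)).summable hp)]
  congr 1
  funext i
  by_cases h1 : i ∈ S
  · have h2 : i ∉ S' := Set.disjoint_left.mp h h1
    rw [res_of_mem h1, res_of_not_mem h2, res_of_mem (Set.mem_union_left _ h1), norm_zero,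
      Real.zero_rpow hp.ne', add_zero]
  · by_cases h2 : i ∈ S'
    · rw [res_of_not_mem h1, res_of_mem h2, res_of_mem (Set.mem_union_right _ h2), norm_zero,
        Real.zero_rpow hp.ne', zero_add]
    · rw [res_of_not_mem h1, res_of_not_mem h2, res_of_not_mem (by
        rintro (h3 | h3)
        · exact h1 h3
        · exact h2 h3), norm_zero, Real.zero_rpow hp.ne', add_zero]

lemma q_reindex (hp : 0 < p.toReal) (e : I ≃ J) (S : Set I) (x : lp (fun _ : J => Z) p) :
    q S (reindex hp e x) = q (e '' S) x := by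
  unfold q
  rw [← (reindex hp e).norm_map (res (e '' S) x)]
  congr 1
  apply lp.ext
  funext i
  rw [reindex_apply]
  by_cases h : i ∈ S
  · rw [res_of_mem h, reindex_apply, res_of_mem (Set.mem_image_of_mem _ h)]
  · rw [res_of_not_mem h, res_of_not_mem]
    intro h'
    exact h (e.injective.mem_set_image.mp h')

end Reindex

section Real

lemma rpow_sub_le {ρ s t : ℝ} (hρ : 1 ≤ ρ) (ht : 0 ≤ t) (hts : t ≤ s) (hs : s ≤ 1) :
    s ^ ρ - t ^ ρ ≤ ρ * (s - t) := by
  rcases ht.eq_or_lt with rfl | htpos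
  · rcases hts.eq_or_lt with rfl | hspos
    · simp
    · rw [Real.zero_rpow (by linarith), sub_zero, sub_zero]
      calc s ^ ρ ≤ s ^ (1 : ℝ) := Real.rpow_le_rpow_of_exponent_ge hspos hs hρ
        _ = s := Real.rpow_one s
        _ ≤ ρ * s := by nlinarith
  · have hspos : 0 < s := htpos.trans_le hts
    have h1 : 1 + ρ * (t / s - 1) ≤ (1 + (t / s - 1)) ^ ρ :=
      one_add_mul_self_le_rpow_one_add (by
        have : 0 ≤ t / s := by positivity
        linarith) hρ
    have h2 : (1 + (t / s - 1)) = t / s := by ring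
    rw [h2, Real.div_rpow ht hspos.le, le_div_iff₀ (Real.rpow_pos_of_pos hspos ρ)] at h1
    have h3 : s ^ ρ ≤ s := by
      calc s ^ ρ ≤ s ^ (1 : ℝ) := Real.rpow_le_rpow_of_exponent_ge hspos hs hρ
        _ = s := Real.rpow_one s
    have h4 : 0 ≤ 1 - t / s := by
      rw [sub_nonneg, div_le_one hspos]; exact hts
    have h5 : s * (1 - t / s) = s - t := by field_simp
    have h6 : ρ * (1 - t / s) * s ^ ρ ≤ ρ * (1 - t / s) * s :=
      mul_le_mul_of_nonneg_left h3 (mul_nonneg (by linarith) h4)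
    nlinarith

lemma abs_rpow_sub_le {ρ s t : ℝ} (hρ : 1 ≤ ρ) (ht : 0 ≤ t) (ht1 : t ≤ 1) (hs0 : 0 ≤ s)
    (hs : s ≤ 1) : |s ^ ρ - t ^ ρ| ≤ ρ * |s - t| := by
  rcases le_total t s with h | h
  · have h1 := rpow_sub_le hρ ht h hs
    have h2 : t ^ ρ ≤ s ^ ρ := Real.rpow_le_rpow ht h (by linarith)
    rw [abs_of_nonneg (sub_nonneg.mpr h2), abs_of_nonneg (sub_nonneg.mpr h)]
    exact h1
  · have h1 := rpow_sub_le hρ hs0 h ht1
    have h2 : s ^ ρ ≤ t ^ ρ := Real.rpow_le_rpow hs0 h (by linarith)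
    rw [abs_sub_comm, abs_of_nonneg (sub_nonneg.mpr h2), abs_sub_comm,
      abs_of_nonneg (sub_nonneg.mpr h)]
    exact h1

lemma ratio_le {ρ a a' b b' D : ℝ} (hρ : 1 ≤ ρ) (ha : 0 ≤ a) (ha' : 0 ≤ a') (hb : 0 < b)
    (hb' : 0 < b') (hab : a ≤ b) (hab' : a' ≤ b') (h1 : |a - a'| ≤ D) (h2 : |b - b'| ≤ D) :
    |(a / b) ^ ρ - (a' / b') ^ ρ| * b ≤ 2 * ρ * D := by
  have e1 : |a / b - a' / b'| * b ≤ 2 * D := by
    have h3 : (a / b - a' / b') * b = (a - a') + (a' / b') * (b' - b) := by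
      field_simp; ring
    rw [← abs_of_pos hb, ← abs_mul, abs_of_pos hb, h3]
    have h4 : |a' / b'| ≤ 1 := by
      rw [abs_of_nonneg (by positivity), div_le_one hb']; exact hab'
    calc |(a - a') + (a' / b') * (b' - b)| ≤ |a - a'| + |(a' / b') * (b' - b)| := abs_add_le _ _
      _ = |a - a'| + |a' / b'| * |b' - b| := by rw [abs_mul]
      _ ≤ D + 1 * D := by
          apply add_le_add h1
          apply mul_le_mul h4 _ (abs_nonneg _) zero_le_one
          rw [abs_sub_comm]; exact h2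
      _ = 2 * D := by ring
  have e2 := abs_rpow_sub_le hρ (t := a' / b') (s := a / b) (by positivity)
    ((div_le_one hb').mpr hab') (by positivity) ((div_le_one hb).mpr hab)
  calc |(a / b) ^ ρ - (a' / b') ^ ρ| * b ≤ (ρ * |a / b - a' / b'|) * b :=
        mul_le_mul_of_nonneg_right e2 hb.le
    _ = ρ * (|a / b - a' / b'| * b) := by ring
    _ ≤ ρ * (2 * D) := mul_le_mul_of_nonneg_left e1 (by linarith)
    _ = 2 * ρ * D := by ring

end Real

section Main

variable {Z : Type} [NormedAddCommGroup Z] [NormedSpace ℝ Z] {p : ℝ≥0∞} [Fact (1 ≤ p)]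

/-- The space `ℓ_p(Z)` on the index set `Option ℕ`. -/
abbrev W (Z : Type) [NormedAddCommGroup Z] [NormedSpace ℝ Z] (p : ℝ≥0∞) : Type :=
  lp (fun _ : Option ℕ => Z) p

lemma single_ne {i j : Option ℕ} (z : Z) (h : j ≠ i) : (lp.single p i z : W Z p) j = 0 :=
  lp.single_apply_ne (E := fun _ : Option ℕ => Z) p i z h

lemma single_self (i : Option ℕ) (z : Z) : (lp.single p i z : W Z p) i = z :=
  lp.single_apply_self (E := fun _ : Option ℕ => Z) p i z

/-- The supremum of the positive parts of the values of a functional. -/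
noncomputable def sp (φ : StrongDual ℝ Z) (x : W Z p) : ℝ := ⨆ i, max (φ (x i)) 0

variable {φ : StrongDual ℝ Z}

lemma phi_le (hφ : ‖φ‖ ≤ 1) (x : W Z p) (i : Option ℕ) : |φ (x i)| ≤ ‖x‖ := by
  calc |φ (x i)| ≤ ‖φ‖ * ‖x i‖ := φ.le_opNorm _
    _ ≤ 1 * ‖x i‖ := mul_le_mul_of_nonneg_right hφ (norm_nonneg _)
    _ = ‖x i‖ := one_mul _
    _ ≤ ‖x‖ := lp.norm_apply_le_norm p_ne_zero x i

lemma sp_bdd (hφ : ‖φ‖ ≤ 1) (x : W Z p) :
    BddAbove (Set.range fun i => max (φ (x i)) 0) := by
  refine ⟨‖x‖, ?_⟩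
  rintro _ ⟨i, rfl⟩
  exact max_le ((le_abs_self _).trans (phi_le hφ x i)) (norm_nonneg _)

lemma sp_sub_le (hφ : ‖φ‖ ≤ 1) (x y : W Z p) : sp φ x ≤ sp φ y + ‖x - y‖ := by
  refine ciSup_le (fun i => ?_)
  have h1 : max (φ (y i)) 0 ≤ sp φ y := le_ciSup (sp_bdd hφ y) i
  have h2 := (abs_le.mp (phi_le hφ (x - y) i)).2
  have h3 : φ ((x - y) i) = φ (x i) - φ (y i) := by
    rw [← map_sub]; rfl
  rw [h3] at h2
  apply max_le
  · linarith [le_max_left (φ (y i)) 0]
  · linarith [le_max_right (φ (y i)) 0, norm_nonneg (x - y)]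

/-- The symmetric function. -/
noncomputable def ff (φ : StrongDual ℝ Z) (x : W Z p) : ℝ := sp φ x - sp φ (-x)

lemma ff_sub_le (hφ : ‖φ‖ ≤ 1) (x y : W Z p) : |ff φ x - ff φ y| ≤ 2 * ‖x - y‖ := by
  have h1 := sp_sub_le hφ x y
  have h2 := sp_sub_le hφ y x
  have h3 := sp_sub_le hφ (-x) (-y)
  have h4 := sp_sub_le hφ (-y) (-x)
  have e1 : ‖y - x‖ = ‖x - y‖ := norm_sub_rev _ _
  have e2 : ‖-x - -y‖ = ‖x - y‖ := by
    rw [← norm_sub_rev]; congr 1; abel
  have e3 : ‖-y - -x‖ = ‖x - y‖ := by congr 1; abel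
  rw [e1] at h2
  rw [e2] at h3
  rw [e3] at h4
  unfold ff
  rw [abs_le]
  constructor <;> linarith

lemma sp_zero : sp φ (0 : W Z p) = 0 := by
  unfold sp
  have : ∀ i, max (φ ((0 : W Z p) i)) 0 = 0 := fun i => by
    have h : (0 : W Z p) i = 0 := rfl
    rw [h, map_zero, max_self]
  simp only [this, ciSup_const]

lemma ff_zero : ff φ (0 : W Z p) = 0 := by
  unfold ff
  rw [neg_zero, sub_self]

lemma sp_reindex (hp : 0 < p.toReal) (e : Equiv.Perm (Option ℕ)) (x : W Z p) :
    sp φ (reindex hp e x) = sp φ x := by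
  unfold sp
  exact e.iSup_comp (g := fun i => max (φ (x i)) 0)

lemma ff_reindex (hp : 0 < p.toReal) (e : Equiv.Perm (Option ℕ)) (x : W Z p) :
    ff φ (reindex hp e x) = ff φ x := by
  unfold ff
  rw [← map_neg, sp_reindex, sp_reindex]

lemma sp_single (z : Z) : sp φ (lp.single p none z : W Z p) = max (φ z) 0 := by
  unfold sp
  apply le_antisymm
  · refine ciSup_le (fun i => ?_)
    cases i with
    | none => rw [single_self]
    | some n =>
      rw [single_ne z (by simp), map_zero, max_self]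
      exact le_max_right _ _
  · have hb : BddAbove (Set.range fun i => max (φ ((lp.single p none z : W Z p) i)) 0) := by
      refine ⟨max (φ z) 0, ?_⟩
      rintro _ ⟨i, rfl⟩
      cases i with
      | none =>
        change max (φ ((lp.single p none z : W Z p) none)) 0 ≤ max (φ z) 0
        rw [single_self]
      | some n =>
        change max (φ ((lp.single p none z : W Z p) (some n))) 0 ≤ max (φ z) 0
        rw [single_ne z (by simp), map_zero, max_self]
        exact le_max_right _ _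
    have h : max (φ ((lp.single p none z : W Z p) none)) 0 ≤
        ⨆ i, max (φ ((lp.single p none z : W Z p) i)) 0 := le_ciSup hb none
    rw [single_self] at h
    exact h

lemma ff_single (z : Z) : ff φ (lp.single p none z : W Z p) = φ z := by
  unfold ff
  rw [← lp.single_neg, sp_single, sp_single, map_neg]
  rcases le_total 0 (φ z) with h | h
  · rw [max_eq_left h, max_eq_right (by linarith), sub_zero]
  · rw [max_eq_right h, max_eq_left (by linarith)]; ring

/-- The difference. -/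
noncomputable def hh (φ : StrongDual ℝ Z) (x : W Z p) : ℝ := φ (x none) - ff φ x

lemma hh_sub_le (hφ : ‖φ‖ ≤ 1) (x y : W Z p) : |hh φ x - hh φ y| ≤ 3 * ‖x - y‖ := by
  have h1 := abs_le.mp (ff_sub_le hφ x y)
  have h2 := abs_le.mp (phi_le hφ (x - y) none)
  have h3 : φ ((x - y) none) = φ (x none) - φ (y none) := by
    rw [← map_sub]; rfl
  rw [h3] at h2
  unfold hh
  rw [abs_le]
  constructor <;> linarith [h1.1, h1.2, h2.1, h2.2]

/-- The indices different from `none`. -/
def N : Set (Option ℕ) := Set.range some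

lemma none_not_mem_N : none ∉ N := by
  rintro ⟨n, hn⟩
  simp at hn

lemma abs_hh_le (hφ : ‖φ‖ ≤ 1) (x : W Z p) : |hh φ x| ≤ 3 * q N x := by
  have h1 := hh_sub_le hφ x (lp.single p none (x none))
  have h2 : hh φ (lp.single p none (x none) : W Z p) = 0 := by
    unfold hh
    rw [ff_single, single_self, sub_self]
  have h3 : x - lp.single p none (x none) = res N x := by
    apply lp.ext
    funext i
    change x i - (lp.single p none (x none) : W Z p) i = res N x i
    cases i with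
    | none => rw [res_of_not_mem none_not_mem_N, single_self, sub_self]
    | some n =>
      rw [res_of_mem (show some n ∈ N from ⟨n, rfl⟩), single_ne _ (by simp), sub_zero]
  rw [h2, sub_zero, h3] at h1
  exact h1

lemma hh_zero : hh φ (0 : W Z p) = 0 := by
  unfold hh
  rw [ff_zero, sub_zero]
  have h : (0 : W Z p) none = 0 := rfl
  rw [h, map_zero]

/-- The weight. -/
noncomputable def wt (S : Set (Option ℕ)) (x : W Z p) : ℝ := (q S x / q N x) ^ p.toReal

lemma wt_nonneg (S : Set (Option ℕ)) (x : W Z p) : 0 ≤ wt S x :=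
  Real.rpow_nonneg (div_nonneg (q_nonneg _ _) (q_nonneg _ _)) _

lemma wt_le_one {S : Set (Option ℕ)} (hS : S ⊆ N) (x : W Z p) : wt S x ≤ 1 := by
  refine Real.rpow_le_one (div_nonneg (q_nonneg _ _) (q_nonneg _ _)) ?_ ENNReal.toReal_nonneg
  exact div_le_one_of_le₀ (q_mono hS x) (q_nonneg _ _)

lemma u_lip (hφ : ‖φ‖ ≤ 1) (hp : 1 ≤ p.toReal) {S : Set (Option ℕ)} (hS : S ⊆ N) (x y : W Z p) :
    |wt S x * hh φ x - wt S y * hh φ y| ≤ (6 * p.toReal + 3) * ‖x - y‖ := by
  have hxy := norm_nonneg (x - y)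
  have key0 : ∀ x y : W Z p, q N x = 0 →
      |wt S x * hh φ x - wt S y * hh φ y| ≤ (6 * p.toReal + 3) * ‖x - y‖ := by
    intro x y hx
    have h1 := abs_hh_le hφ x
    rw [hx, mul_zero] at h1
    have h2 : hh φ x = 0 := abs_eq_zero.mp (le_antisymm h1 (abs_nonneg _))
    have h3 := hh_sub_le hφ x y
    rw [h2, zero_sub, abs_neg] at h3
    rw [h2, mul_zero, zero_sub, abs_neg, abs_mul, abs_of_nonneg (wt_nonneg S y)]
    have hxy := norm_nonneg (x - y)
    calc wt S y * |hh φ y| ≤ 1 * |hh φ y| :=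
          mul_le_mul_of_nonneg_right (wt_le_one hS y) (abs_nonneg _)
      _ ≤ (6 * p.toReal + 3) * ‖x - y‖ := by nlinarith
  rcases (q_nonneg N x).eq_or_lt with hx | hx
  · exact key0 x y hx.symm
  rcases (q_nonneg N y).eq_or_lt with hy | hy
  · rw [abs_sub_comm, norm_sub_rev]
    exact key0 y x hy.symm
  have h1 := ratio_le hp (q_nonneg S x) (q_nonneg S y) hx hy (q_mono hS x) (q_mono hS y)
    (q_sub S x y) (q_sub N x y)
  have h2 : |wt S x - wt S y| * |hh φ x| ≤ 3 * (2 * p.toReal * ‖x - y‖) := by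
    calc |wt S x - wt S y| * |hh φ x| ≤ |wt S x - wt S y| * (3 * q N x) :=
          mul_le_mul_of_nonneg_left (abs_hh_le hφ x) (abs_nonneg _)
      _ = 3 * (|wt S x - wt S y| * q N x) := by ring
      _ ≤ 3 * (2 * p.toReal * ‖x - y‖) := mul_le_mul_of_nonneg_left h1 (by norm_num)
  have h3 : wt S y * |hh φ x - hh φ y| ≤ 3 * ‖x - y‖ := by
    calc wt S y * |hh φ x - hh φ y| ≤ 1 * |hh φ x - hh φ y| :=
          mul_le_mul_of_nonneg_right (wt_le_one hS y) (abs_nonneg _)
      _ ≤ 3 * ‖x - y‖ := by rw [one_mul]; exact hh_sub_le hφ x y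
  calc |wt S x * hh φ x - wt S y * hh φ y|
      = |(wt S x - wt S y) * hh φ x + wt S y * (hh φ x - hh φ y)| := by congr 1; ring
    _ ≤ |(wt S x - wt S y) * hh φ x| + |wt S y * (hh φ x - hh φ y)| := abs_add_le _ _
    _ = |wt S x - wt S y| * |hh φ x| + wt S y * |hh φ x - hh φ y| := by
        rw [abs_mul, abs_mul, abs_of_nonneg (wt_nonneg S y)]
    _ ≤ 3 * (2 * p.toReal * ‖x - y‖) + 3 * ‖x - y‖ := add_le_add h2 h3
    _ = _ := by ring

/-- The pieces of the difference function. -/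
noncomputable def U (hφ : ‖φ‖ ≤ 1) (hp : 1 ≤ p.toReal) (S : Set (Option ℕ)) (hS : S ⊆ N) :
    Lip0 (W Z p) :=
  Lip.mk (fun x => wt S x * hh φ x) (by rw [hh_zero, mul_zero]) (6 * p.toReal + 3)
    (fun x y => by rw [dist_eq_norm]; exact u_lip hφ hp hS x y)

/-- The symmetric function as a Lipschitz function. -/
noncomputable def Ff (hφ : ‖φ‖ ≤ 1) : Lip0 (W Z p) :=
  Lip.mk (fun x => ff φ x) ff_zero 2 (fun x y => by rw [dist_eq_norm]; exact ff_sub_le hφ x y)

lemma U_add (hφ : ‖φ‖ ≤ 1) (hp : 1 ≤ p.toReal) {S S' : Set (Option ℕ)} (hS : S ⊆ N)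
    (hS' : S' ⊆ N) (hd : Disjoint S S') (hU : S ∪ S' ⊆ N) :
    U (p := p) hφ hp (S ∪ S') hU = U hφ hp S hS + U hφ hp S' hS' := by
  apply Lip.ext
  intro x
  rw [Lip.add_apply]
  change wt (S ∪ S') x * hh φ x = wt S x * hh φ x + wt S' x * hh φ x
  rw [← add_mul]
  congr 1
  unfold wt
  rw [Real.div_rpow (q_nonneg _ _) (q_nonneg _ _), Real.div_rpow (q_nonneg _ _) (q_nonneg _ _),
    Real.div_rpow (q_nonneg _ _) (q_nonneg _ _), ← q_add (by linarith) hd x, add_div]

lemma image_some (π : Equiv.Perm ℕ) (A : Set ℕ) :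
    (Equiv.optionCongr π) '' (some '' A) = some '' (π '' A) := by
  ext i
  constructor
  · rintro ⟨_, ⟨n, hn, rfl⟩, rfl⟩
    exact ⟨π n, ⟨n, hn, rfl⟩, rfl⟩
  · rintro ⟨_, ⟨n, hn, rfl⟩, rfl⟩
    exact ⟨some n, ⟨n, hn, rfl⟩, rfl⟩

lemma image_N (π : Equiv.Perm ℕ) : (Equiv.optionCongr π) '' N = N := by
  have h := image_some π Set.univ
  have h1 : (some '' Set.univ : Set (Option ℕ)) = N := Set.image_univ
  rw [Set.image_univ (f := π), π.surjective.range_eq] at h
  rw [h1] at h
  exact h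

lemma pull_U (hφ : ‖φ‖ ≤ 1) (hp : 1 ≤ p.toReal) (hp0 : 0 < p.toReal) (π : Equiv.Perm ℕ)
    (A : Set ℕ) (h1 : some '' A ⊆ N) (h2 : some '' (π '' A) ⊆ N) :
    pull (reindex hp0 (Equiv.optionCongr π)) (U (p := p) hφ hp (some '' A) h1) =
      U hφ hp (some '' (π '' A)) h2 := by
  apply Lip.ext
  intro x
  rw [pull_apply]
  change wt (some '' A) (reindex hp0 (Equiv.optionCongr π) x) *
    hh φ (reindex hp0 (Equiv.optionCongr π) x) = wt (some '' (π '' A)) x * hh φ x
  have e1 : wt (some '' A) (reindex hp0 (Equiv.optionCongr π) x) = wt (some '' (π '' A)) x := by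
    unfold wt
    rw [q_reindex, q_reindex, image_some, image_N]
  have e2 : hh φ (reindex hp0 (Equiv.optionCongr π) x) = hh φ x := by
    unfold hh
    rw [ff_reindex, reindex_apply]
    rfl
  rw [e1, e2]

lemma pull_F (hφ : ‖φ‖ ≤ 1) (hp0 : 0 < p.toReal) (e : Equiv.Perm (Option ℕ)) :
    pull (reindex hp0 e) (Ff (p := p) hφ) = Ff hφ := by
  apply Lip.ext
  intro x
  rw [pull_apply]
  exact ff_reindex hp0 e x

lemma some_sub (A : Set ℕ) : (some '' A : Set (Option ℕ)) ⊆ N := by
  rintro _ ⟨n, _, rfl⟩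
  exact ⟨n, rfl⟩

/-- The functional at the first coordinate. -/
noncomputable def ev (φ : StrongDual ℝ Z) : StrongDual ℝ (W Z p) :=
  LinearMap.mkContinuous
    { toFun := fun x : W Z p => φ (x none)
      map_add' := fun x y => by
        have h : (x + y : W Z p) none = x none + y none := rfl
        rw [h, map_add]
      map_smul' := fun c x => by
        have h : (c • x : W Z p) none = c • x none := rfl
        rw [h, map_smul]; rfl } ‖φ‖ (fun x => by
      exact (φ.le_opNorm _).trans (mul_le_mul_of_nonneg_left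
        (lp.norm_apply_le_norm p_ne_zero x none) (norm_nonneg _)))

lemma U_univ (hφ : ‖φ‖ ≤ 1) (hp : 1 ≤ p.toReal) (h : (some '' Set.univ : Set (Option ℕ)) ⊆ N) :
    U (p := p) hφ hp (some '' Set.univ) h = toLip (ev φ) - Ff hφ := by
  apply Lip.ext
  intro x
  rw [Lip.sub_apply]
  change wt (some '' Set.univ) x * hh φ x = φ (x none) - ff φ x
  have h1 : (some '' Set.univ : Set (Option ℕ)) = N := Set.image_univ
  rw [h1]
  change wt N x * hh φ x = hh φ x
  rcases (q_nonneg N x).eq_or_lt with hx | hx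
  · have h1 := abs_hh_le hφ x
    rw [← hx, mul_zero] at h1
    have h2 : hh φ x = 0 := abs_eq_zero.mp (le_antisymm h1 (abs_nonneg _))
    rw [h2, mul_zero]
  · unfold wt
    rw [div_self hx.ne', Real.one_rpow, one_mul]

lemma reindex_single (hp0 : 0 < p.toReal) (e : Equiv.Perm (Option ℕ)) (i j : Option ℕ)
    (h : e j = i) (z : Z) :
    reindex hp0 e (lp.single p i z : W Z p) = lp.single p j z := by
  apply lp.ext
  funext k
  rw [reindex_apply]
  by_cases hk : k = j
  · subst hk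
    rw [h, single_self, single_self]
  · have h1 : e k ≠ i := fun h' => hk (e.injective (h'.trans h.symm))
    rw [single_ne z hk, single_ne z h1]

/-- A functional with equal values at the unit vectors vanishes there, for `p > 1`. -/
lemma const_zero (hp : 1 < p.toReal) (ψ : StrongDual ℝ (W Z p)) (z : Z) (c : ℝ)
    (h : ∀ i, ψ (lp.single p i z) = c) : c = 0 := by
  by_contra hc
  have hp0 : 0 < p.toReal := by linarith
  have hcp : 0 < |c| := abs_pos.mpr hc
  have h1 : ∀ n : ℕ, (n : ℝ) * |c| ≤ ‖ψ‖ * ((n : ℝ) ^ (1 / p.toReal) * ‖z‖) := by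
    intro n
    set s : Finset (Option ℕ) := (Finset.range n).map ⟨some, Option.some_injective ℕ⟩ with hs
    have hcard : s.card = n := by rw [hs, Finset.card_map, Finset.card_range]
    have h2 := lp.norm_sum_single (p := p) (E := fun _ : Option ℕ => Z) hp0 (fun _ => z) s
    rw [Finset.sum_const, hcard, nsmul_eq_mul] at h2
    have h3 : ‖∑ i ∈ s, lp.single p (E := fun _ : Option ℕ => Z) i z‖ =
        (n : ℝ) ^ (1 / p.toReal) * ‖z‖ := by
      have h4 : (‖∑ i ∈ s, lp.single p (E := fun _ : Option ℕ => Z) i z‖ ^ p.toReal) ^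
          (1 / p.toReal) = ((n : ℝ) * ‖z‖ ^ p.toReal) ^ (1 / p.toReal) := by rw [h2]
      rw [← Real.rpow_mul (norm_nonneg _), mul_one_div_cancel hp0.ne', Real.rpow_one,
        Real.mul_rpow (Nat.cast_nonneg n) (Real.rpow_nonneg (norm_nonneg _) _),
        ← Real.rpow_mul (norm_nonneg _), mul_one_div_cancel hp0.ne', Real.rpow_one] at h4
      exact h4
    have h5 := ψ.le_opNorm (∑ i ∈ s, lp.single p (E := fun _ : Option ℕ => Z) i z)
    rw [h3, map_sum, Finset.sum_congr rfl (fun i _ => h i), Finset.sum_const, hcard,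
      nsmul_eq_mul, norm_mul, Real.norm_of_nonneg (Nat.cast_nonneg n), Real.norm_eq_abs] at h5
    exact h5
  have hexp : 0 < 1 - 1 / p.toReal := by
    rw [sub_pos, div_lt_one hp0]; exact hp
  have ht := (tendsto_rpow_atTop hexp).comp tendsto_natCast_atTop_atTop
  obtain ⟨n, hn0, hn⟩ := ((Filter.eventually_gt_atTop 0).and
    (ht.eventually_gt_atTop (‖ψ‖ * ‖z‖ / |c|))).exists
  simp only [Function.comp_apply] at hn
  rw [div_lt_iff₀ hcp] at hn
  have hnpos : (0 : ℝ) < (n : ℝ) := by exact_mod_cast hn0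
  have h6 := h1 n
  have h7 : (n : ℝ) = (n : ℝ) ^ (1 - 1 / p.toReal) * (n : ℝ) ^ (1 / p.toReal) := by
    rw [← Real.rpow_add hnpos, sub_add_cancel, Real.rpow_one]
  have h8 : 0 < (n : ℝ) ^ (1 / p.toReal) := Real.rpow_pos_of_pos hnpos _
  have h9 : ‖ψ‖ * ‖z‖ * (n : ℝ) ^ (1 / p.toReal) <
      (n : ℝ) ^ (1 - 1 / p.toReal) * |c| * (n : ℝ) ^ (1 / p.toReal) :=
    mul_lt_mul_of_pos_right hn h8
  have h10 : (n : ℝ) * |c| = (n : ℝ) ^ (1 - 1 / p.toReal) * |c| * (n : ℝ) ^ (1 / p.toReal) := by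
    nth_rewrite 1 [h7]
    ring
  linarith

/-- The main result: `ℓ_p(Z)` fails the equivariant dual lifting property for `1 < p < ∞`. -/
theorem not_edl_W [Nontrivial Z] (hp : 1 < p.toReal) : ¬ EDL (W Z p) := by
  rintro ⟨P, hP1, hP2⟩
  have hp0 : 0 < p.toReal := by linarith
  obtain ⟨z, hz⟩ := exists_ne (0 : Z)
  have hz' : ‖z‖ ≠ 0 := norm_ne_zero_iff.mpr hz
  obtain ⟨φ, hφ1, hφz⟩ := exists_dual_vector ℝ z hz'
  have hφ : ‖φ‖ ≤ 1 := hφ1.le
  set s₀ : W Z p := lp.single p none z with hs₀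
  -- the symmetric function is mapped to a functional vanishing at the unit vectors
  have hF : P (Ff hφ) s₀ = 0 := by
    refine const_zero hp (P (Ff hφ)) z _ (fun i => ?_)
    have h1 := hP2 (reindex hp0 (Equiv.swap none i)) (Ff hφ) s₀
    rw [pull_F, hs₀, reindex_single hp0 (Equiv.swap none i) none i
      (Equiv.swap_apply_right none i)] at h1
    exact h1.symm
  set m : Set ℕ → ℝ := fun A => P (U hφ hp.le (some '' A) (some_sub A)) s₀ with hm
  have h1 : m Set.univ = 0 := by
    apply paradox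
    · intro A B hAB
      have hd : Disjoint (some '' A : Set (Option ℕ)) (some '' B) :=
        (Set.disjoint_image_iff (Option.some_injective ℕ)).mpr hAB
      have hU : (some '' A : Set (Option ℕ)) ∪ some '' B ⊆ N :=
        Set.union_subset (some_sub A) (some_sub B)
      have h2 := U_add (p := p) hφ hp.le (some_sub A) (some_sub B) hd hU
      have h3 : U (p := p) hφ hp.le (some '' (A ∪ B)) (some_sub (A ∪ B)) =
          U hφ hp.le (some '' A ∪ some '' B) hU := by
        congr 1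
        exact Set.image_union _ _ _
      rw [hm]
      simp only
      rw [h3, h2, map_add]
      rfl
    · intro π A
      rw [hm]
      simp only
      rw [← pull_U hφ hp.le hp0 π A (some_sub A) (some_sub (π '' A)), hP2, hs₀,
        reindex_single hp0 (Equiv.optionCongr π) none none rfl]
  have h2 : m Set.univ = ‖z‖ := by
    rw [hm]
    simp only
    rw [U_univ, map_sub, hP1]
    change ev φ s₀ - P (Ff hφ) s₀ = ‖z‖
    rw [hF, sub_zero]
    change φ (s₀ none) = ‖z‖
    rw [hs₀, single_self]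
    exact hφz
  exact hz' (h2.symm.trans h1)

/-- The same for every space which is isometric to a space `ℓ_p(Z)`. -/
theorem not_edl [Nontrivial Z] (hp : 1 < p.toReal) {X : Type} [NormedAddCommGroup X]
    [NormedSpace ℝ X] (e : X ≃ₗᵢ[ℝ] lp (fun _ : ℕ => Z) p) : ¬ EDL X := by
  intro h
  have hp0 : 0 < p.toReal := by linarith
  obtain ⟨e'⟩ : Nonempty (Option ℕ ≃ ℕ) := ⟨Denumerable.eqv (Option ℕ)⟩
  exact not_edl_W hp (h.congr (e.trans (reindex hp0 e')))

end Main

end Pool.Agent.X171.ED
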